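import Mathlib
import Pool.Agent.MP_6a785f_an.Defs
import Pool.Agent.MP_6a785f_an.Final

set_option autoImplicit false

open Pool.Agent.MP_6a785f_an

namespace Pool.Agent.Results.MP_6a785f_an.GKS

theorem result (c : ℝ) (hc0 : 0 < c) (hc1 : c < 1) (p q : ℝ) (hp1 : 1 < p) (hp2 : p ≤ 2)
    (hq : 2 ≤ q) :
    ∃ C : ℝ, ∀ N n : ℕ, 1 ≤ N → (1 - c) * (N : ℝ) ^ 2 ≤ (n : ℝ) →
      (n : ℝ) ≤ (N : ℝ) ^ 2 - c * (N : ℝ) ^ (max (3 - 2 / p) (1 + 2 / q)) + 1 →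
      approxNumberId N p q n ≤ ENNReal.ofReal
        (C * (N : ℝ) ^ (max (3 - 2 / p) (1 + 2 / q) / 2 - 2) * √((N : ℝ) ^ 2 - (n : ℝ) + 1)) :=
  final c hc0 hc1 p q hp1 hp2 hq

end Pool.Agent.Results.MP_6a785f_an.GKS
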